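import Pool.Agent.N554.PW.Let
import Pool.Agent.N554.PW.FS

/-!
# The value `2 k ^ h` is attained at all positions up to the first hole

Partial words of length `n` over `k` letters are functions `Fin n → Option (Fin k)`; `none` is a
hole. For every nonempty set `H` of `h` holes with `max H ≤ m` and every
`n ≥ 4 * 6 ^ (k ^ h) * (m + 4)` there is a partial word of length `n` with hole set exactly `H` in
which exactly the positions `i ≤ min H` are extremal, i.e. satisfy `Sq w i = 2 * k ^ h`. The upper
bound `Sq w i ≤ 2 * k ^ (number of holes at positions ≥ i)` (known; Fraenkel–Simpson for full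
words) is proved here as well, with the three squares lemma of `Pool/Agent/N554/PW/FS.lean`.
-/

set_option autoImplicit false

namespace Pool.Agent.Results.MP_922422_co.AllPositionsUpToFirstHole

open Pool.Agent.N554.PW

/-- The full square `x x` occurs at position `i` of the partial word `w`. -/
def OccursSq {k n : ℕ} (w : Fin n → Option (Fin k)) (x : List (Fin k)) (i : ℕ) : Prop :=
  x ≠ [] ∧ i + 2 * x.length ≤ n ∧
    ∀ j : Fin n, i ≤ j → (j : ℕ) < i + 2 * x.length → w j = none ∨ w j = (x ++ x)[(j : ℕ) - i]?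

/-- The number of distinct full squares whose rightmost occurrence in `w` begins at `i`. -/
noncomputable def Sq {k n : ℕ} (w : Fin n → Option (Fin k)) (i : ℕ) : ℕ :=
  Set.ncard {x : List (Fin k) | OccursSq w x i ∧ ∀ i', i < i' → ¬ OccursSq w x i'}

/-- The number of holes of `w`. -/
def holes {k n : ℕ} (w : Fin n → Option (Fin k)) : ℕ :=
  (Finset.univ.filter (fun j : Fin n => w j = none)).card

lemma finite_set {k n : ℕ} (w : Fin n → Option (Fin k)) (i : ℕ) :
    {x : List (Fin k) | OccursSq w x i ∧ ∀ i', i < i' → ¬ OccursSq w x i'}.Finite := by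
  refine (List.finite_length_le (Fin k) n).subset ?_
  rintro x ⟨⟨_, h, _⟩, _⟩
  show x.length ≤ n
  omega

/-! ### The upper bound -/

/-- The letters which the square `x x` at position `i` puts into the holes at positions `≥ i`. -/
def fill {k n : ℕ} (w : Fin n → Option (Fin k)) (z : Fin k) (i : ℕ) (x : List (Fin k)) :
    {j : Fin n // w j = none ∧ i ≤ (j : ℕ)} → Fin k :=
  fun j => ((x ++ x)[((j.1 : Fin n) : ℕ) - i]?).getD z

/-- The completion of `w` given by `c`. -/
def comp {k n : ℕ} (w : Fin n → Option (Fin k)) (z : Fin k) (i : ℕ)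
    (c : {j : Fin n // w j = none ∧ i ≤ (j : ℕ)} → Fin k) (j : ℕ) : Fin k :=
  if hj : j < n then
    (if h : w ⟨j, hj⟩ = none ∧ i ≤ j then c ⟨⟨j, hj⟩, h⟩ else (w ⟨j, hj⟩).getD z)
  else z

lemma get_of_occ {k n : ℕ} (w : Fin n → Option (Fin k)) (z : Fin k) (i : ℕ) (x : List (Fin k))
    (h : OccursSq w x i) (r : ℕ) (hr : r < 2 * x.length) :
    (x ++ x)[r]? = some (comp w z i (fill w z i x) (i + r)) := by
  obtain ⟨_, h1, h2⟩ := h
  have hin : i + r < n := by omega
  have h3 := h2 ⟨i + r, hin⟩ (by simp) (by simp; omega)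
  simp only [Nat.add_sub_cancel_left] at h3
  have hlen : r < (x ++ x).length := by simp; omega
  unfold comp
  rw [dif_pos hin]
  by_cases hn : w ⟨i + r, hin⟩ = none
  · rw [dif_pos ⟨hn, by omega⟩]
    unfold fill
    simp only [Nat.add_sub_cancel_left]
    rw [List.getElem?_eq_getElem hlen]; rfl
  · rw [dif_neg (fun h => hn h.1)]
    have h4 := h3.resolve_left hn
    rw [h4, List.getElem?_eq_getElem hlen]; rfl

lemma no3 {k n : ℕ} (w : Fin n → Option (Fin k)) (z : Fin k) (i : ℕ) (x y u : List (Fin k))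
    (hx : OccursSq w x i) (hx' : ∀ i', i < i' → ¬ OccursSq w x i') (hy : OccursSq w y i)
    (hu : OccursSq w u i) (hxy : fill w z i x = fill w z i y) (hxu : fill w z i x = fill w z i u)
    (h1 : x.length < y.length) (h2 : y.length < u.length) : False := by
  let s : ℕ → Fin k := fun r => comp w z i (fill w z i x) (i + r)
  have per : ∀ v : List (Fin k), OccursSq w v i → fill w z i x = fill w z i v →
      ∀ j, j < v.length → s (j + v.length) = s j := by
    intro v hv hf j hj
    have e1 := get_of_occ w z i v hv j (by omega)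
    have e2 := get_of_occ w z i v hv (j + v.length) (by omega)
    rw [← hf] at e1 e2
    rw [List.getElem?_append_left hj] at e1
    rw [List.getElem?_append_right (by omega), Nat.add_sub_cancel] at e2
    exact Option.some.inj (e2.symm.trans e1)
  obtain ⟨t, t1, t2, t3⟩ := three_squares s x.length y.length u.length
    (List.length_pos_iff.2 hx.1) h1 h2 (per x hx rfl) (per y hy hxy) (per u hu hxu)
  refine hx' (i + t) (by omega) ⟨hx.1, ?_, ?_⟩
  · have := hu.2.1; omega
  · intro j hj1 hj2
    by_cases hn : w j = none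
    · exact Or.inl hn
    · right
      have e := get_of_occ w z i x hx ((j : ℕ) - (i + t)) (by omega)
      have e3 := t3 ((j : ℕ) - (i + t)) (by omega)
      have e4 : s ((j : ℕ) - (i + t) + t) = comp w z i (fill w z i x) j := by
        show comp w z i (fill w z i x) (i + ((j : ℕ) - (i + t) + t)) = _
        rw [show i + ((j : ℕ) - (i + t) + t) = (j : ℕ) by omega]
      have e5 : some (comp w z i (fill w z i x) j) = w j := by
        obtain ⟨b, hb⟩ := Option.ne_none_iff_exists'.1 hn
        unfold comp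
        rw [dif_pos j.2, dif_neg (fun h => hn h.1)]
        simp [hb]
      rw [e, ← e5, ← e4, e3]

/-- The number of holes of `w` at positions `≥ i`. -/
def holesFrom {k n : ℕ} (w : Fin n → Option (Fin k)) (i : ℕ) : ℕ :=
  (Finset.univ.filter (fun j : Fin n => w j = none ∧ i ≤ (j : ℕ))).card

/-- The known upper bound. -/
theorem Sq_le {k n : ℕ} (hk : 1 ≤ k) (w : Fin n → Option (Fin k)) (i : ℕ) :
    Sq w i ≤ 2 * k ^ holesFrom w i := by
  classical
  let z : Fin k := ⟨0, by omega⟩
  have h0 : Sq w i = (finite_set w i).toFinset.card := by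
    unfold Sq; rw [Set.ncard_eq_toFinset_card _ (finite_set w i)]
  have hmem : ∀ x, x ∈ (finite_set w i).toFinset ↔
      (OccursSq w x i ∧ ∀ i', i < i' → ¬ OccursSq w x i') := fun x => by simp
  generalize (finite_set w i).toFinset = S at *
  have h1 : S.card ≤ 2 * (S.image (fill w z i)).card := by
    apply Finset.card_le_mul_card_image
    intro c hc
    by_contra hcon
    push Not at hcon
    obtain ⟨x, hx, y, hy, u, hu, hxy, hxu, hyu⟩ := Finset.two_lt_card.1 hcon
    simp only [Finset.mem_filter, hmem] at hx hy hu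
    have key : ∀ x y u : List (Fin k),
        ((OccursSq w x i ∧ ∀ i', i < i' → ¬ OccursSq w x i') ∧ fill w z i x = c) →
        ((OccursSq w y i ∧ ∀ i', i < i' → ¬ OccursSq w y i') ∧ fill w z i y = c) →
        ((OccursSq w u i ∧ ∀ i', i < i' → ¬ OccursSq w u i') ∧ fill w z i u = c) →
        x.length < y.length → y.length < u.length → False := by
      intro x y u hx hy hu a b
      exact no3 w z i x y u hx.1.1 hx.1.2 hy.1.1 hu.1.1 (hx.2.trans hy.2.symm)
        (hx.2.trans hu.2.symm) a b
    have len : ∀ x y : List (Fin k),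
        ((OccursSq w x i ∧ ∀ i', i < i' → ¬ OccursSq w x i') ∧ fill w z i x = c) →
        ((OccursSq w y i ∧ ∀ i', i < i' → ¬ OccursSq w y i') ∧ fill w z i y = c) →
        x ≠ y → x.length ≠ y.length := by
      intro x y hx hy hne hl
      apply hne
      apply List.ext_getElem?
      intro r
      rcases lt_or_ge r x.length with hr | hr
      · have e1 := get_of_occ w z i x hx.1.1 r (by omega)
        have e2 := get_of_occ w z i y hy.1.1 r (by omega)
        rw [hx.2, List.getElem?_append_left hr] at e1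
        rw [hy.2, List.getElem?_append_left (by omega)] at e2
        rw [e1, e2]
      · rw [List.getElem?_eq_none hr, List.getElem?_eq_none (by omega)]
    have l1 := len x y hx hy hxy
    have l2 := len x u hx hu hxu
    have l3 := len y u hy hu hyu
    rcases lt_or_gt_of_ne l1 with a | a <;> rcases lt_or_gt_of_ne l2 with b | b <;>
      rcases lt_or_gt_of_ne l3 with d | d <;>
      first
        | exact key x y u hx hy hu (by omega) (by omega)
        | exact key x u y hx hu hy (by omega) (by omega)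
        | exact key y x u hy hx hu (by omega) (by omega)
        | exact key y u x hy hu hx (by omega) (by omega)
        | exact key u x y hu hx hy (by omega) (by omega)
        | exact key u y x hu hy hx (by omega) (by omega)
  have h2 : (S.image (fill w z i)).card ≤ k ^ holesFrom w i := by
    refine (Finset.card_le_univ _).trans (le_of_eq ?_)
    rw [Fintype.card_fun, Fintype.card_fin, Fintype.card_subtype]
    rfl
  rw [h0]
  exact h1.trans (Nat.mul_le_mul_left _ h2)

/-- A position with `Sq w i = 2 k ^ h` is not strictly after a hole. -/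
lemma le_of_extremal {k n : ℕ} (hk : 2 ≤ k) (H : Finset ℕ) (w : Fin n → Option (Fin k))
    (hw : ∀ j : Fin n, w j = none ↔ (j : ℕ) ∈ H) (i : ℕ) (hi : 2 * k ^ H.card ≤ Sq w i) :
    ∀ t ∈ H, i ≤ t := by
  have h1 := hi.trans (Sq_le (by omega) w i)
  have h2 : k ^ H.card ≤ k ^ holesFrom w i := by omega
  have h3 : H.card ≤ holesFrom w i := (Nat.pow_le_pow_iff_right (by omega)).1 h2
  have h4 : holesFrom w i ≤ (H.filter (fun t => i ≤ t)).card := by
    unfold holesFrom
    rw [← Finset.card_map Fin.valEmbedding]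
    apply Finset.card_le_card
    intro t ht
    simp only [Finset.mem_map, Finset.mem_filter, Finset.mem_univ, true_and,
      Fin.valEmbedding_apply] at ht ⊢
    obtain ⟨j, ⟨hj1, hj2⟩, rfl⟩ := ht
    exact ⟨(hw j).1 hj1, hj2⟩
  have h5 := Finset.eq_of_subset_of_card_le (Finset.filter_subset (fun t => i ≤ t) H)
    (h3.trans h4)
  intro t ht
  rw [← h5] at ht
  exact (Finset.mem_filter.1 ht).2

/-- The known upper bound in terms of the hole set. -/
lemma Sq_le_card {k n : ℕ} (hk : 2 ≤ k) (H : Finset ℕ) (w : Fin n → Option (Fin k))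
    (hw : ∀ j : Fin n, w j = none ↔ (j : ℕ) ∈ H) (i : ℕ) : Sq w i ≤ 2 * k ^ H.card := by
  refine (Sq_le (by omega) w i).trans (Nat.mul_le_mul_left _ (Nat.pow_le_pow_right (by omega) ?_))
  unfold holesFrom
  rw [← Finset.card_map Fin.valEmbedding]
  apply Finset.card_le_card
  intro t ht
  simp only [Finset.mem_map, Finset.mem_filter, Finset.mem_univ, true_and,
    Fin.valEmbedding_apply] at ht
  obtain ⟨j, ⟨hj1, hj2⟩, rfl⟩ := ht
  exact (hw j).1 hj1

/-! ### The construction -/

/-- The two periods (in blocks) of filling `e + 1`. -/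
def per (p : ℕ × Bool) : ℕ := if p.2 then 3 * Ln p.1 + 2 else 2 * Ln p.1 + 1

lemma per_inj : Function.Injective per := by
  have key : ∀ e e' : ℕ, e < e' → 6 * Ln e + 4 ≤ Ln e' := fun e e' h => by
    rw [← Ln_succ]; exact Ln_mono h
  rintro ⟨e, b⟩ ⟨e', b'⟩ h
  have h1 := Ln_pos e
  have h2 := Ln_pos e'
  rcases lt_trichotomy e e' with hlt | heq | hgt
  · exfalso
    have := key e e' hlt
    cases b <;> cases b' <;> simp [per] at h <;> omega
  · subst heq
    cases b <;> cases b' <;> simp [per] at h ⊢ <;> omega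
  · exfalso
    have := key e' e hgt
    cases b <;> cases b' <;> simp [per] at h <;> omega

/-- The main construction. -/
theorem main (k : ℕ) (hk : 2 ≤ k) (H : Finset ℕ) (hne : H.Nonempty) (m : ℕ)
    (hm : ∀ t ∈ H, t ≤ m) (n : ℕ) (hn : 4 * 6 ^ (k ^ H.card) * (m + 4) ≤ n) :
    ∃ w : Fin n → Option (Fin k), (∀ j : Fin n, w j = none ↔ (j : ℕ) ∈ H) ∧
      ∀ i, (∀ t ∈ H, i ≤ t) → 2 * k ^ H.card ≤ Sq w i := by
  classical
  -- letters
  set z : Fin k := ⟨0, by omega⟩ with hz
  set o : Fin k := ⟨1, by omega⟩ with ho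
  have hzo : z ≠ o := by simp [hz, ho]
  set N : ℕ := k ^ H.card with hN
  have hcard : Fintype.card (H → Fin k) = N := by simp [hN]
  let e : Fin N ≃ (H → Fin k) := (Fintype.equivFinOfCardEq hcard).symm
  let F : ℕ → ℕ → Fin k := fun i r =>
    if hr : r ∈ H then (if hi : i < N then e ⟨i, hi⟩ ⟨r, hr⟩ else o) else o
  have hF1 : ∀ i r, r ∉ H → F i r = o := fun i r hr => by simp [F, hr]
  have hF2 : ∀ i, i < N → ∀ i', i' < N → (∀ r ∈ H, F i r = F i' r) → i = i' := by
    intro i hi i' hi' h
    have : e ⟨i, hi⟩ = e ⟨i', hi'⟩ := by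
      funext r
      have := h r.1 r.2
      simpa [F, r.2, hi, hi'] using this
    have := e.injective this
    simpa using this
  -- block length
  set a : ℕ := m + 1 with ha
  have hH : ∀ t ∈ H, t < a := fun t ht => by have := hm t ht; omega
  have hlen : (2 * a + 5) * (Ln N + 1) ≤ n := by
    have h1 : (2 * a + 5) * (Ln N + 1) ≤ (2 * (m + 4)) * (2 * 6 ^ N) :=
      Nat.mul_le_mul (by omega) (Ln_le N)
    calc (2 * a + 5) * (Ln N + 1) ≤ (2 * (m + 4)) * (2 * 6 ^ N) := h1
      _ = 4 * 6 ^ N * (m + 4) := by ring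
      _ ≤ n := hn
  refine ⟨fun j => W z o F a N H j, ?_, ?_⟩
  · intro j
    by_cases hj : (j : ℕ) ∈ H <;> simp [W, hj]
  intro i hi
  obtain ⟨t0, ht0⟩ := hne
  have hia : i < a := lt_of_le_of_lt (hi t0 ht0) (hH t0 ht0)
  -- the family of roots
  let f : Fin N × Bool → List (Fin k) := fun p =>
    xl z o F a N (p.1 + 1) (per (p.1, p.2)) i
  have hfinj : Function.Injective f := by
    intro p q hpq
    have h1 := congrArg List.length hpq
    simp only [f, xl_length] at h1
    have h2 : per (p.1, p.2) = per (q.1, q.2) := Nat.eq_of_mul_eq_mul_left (by omega) h1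
    have h3 := per_inj h2
    simp only [Prod.mk.injEq] at h3
    exact Prod.ext (Fin.ext h3.1) h3.2
  have hsub : Set.range f ⊆ {x : List (Fin k) | OccursSq (fun j : Fin n => W z o F a N H j) x i ∧
      ∀ i', i < i' → ¬ OccursSq (fun j : Fin n => W z o F a N H j) x i'} := by
    rintro _ ⟨⟨c, b⟩, rfl⟩
    have hc : (c : ℕ) + 1 ≤ N := c.2
    have hL := Ln_pos c
    set P : ℕ := per (c, b) with hPdef
    have hP1 : 3 * Ln c + 2 < 2 * P := by
      cases b <;> simp [hPdef, per] <;> omega
    have hP2 : 2 * P ≤ Ln ((c : ℕ) + 1) := by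
      rw [Ln_succ]
      cases b <;> simp [hPdef, per] <;> omega
    have hP3 : 2 * P ≤ Ln N := hP2.trans (Ln_mono hc)
    have hper : ∀ q, q < P → tc N ((c : ℕ) + 1) (q + P) = tc N ((c : ℕ) + 1) q := by
      intro q hq
      rw [tc_stable hc _ (by omega), tc_stable hc _ (by omega)]
      cases b with
      | false =>
        have : P = 2 * Ln c + 1 := by simp [hPdef, per]
        rw [this]; exact tc_period1 _ _ (by omega)
      | true =>
        have : P = 3 * Ln c + 2 := by simp [hPdef, per]
        rw [this]; exact tc_period2 _ _ (by omega)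
    have hlenx : (f (c, b)).length = (2 * a + 5) * P := by simp only [f, xl_length]; rfl
    have hget : ∀ r, r < 2 * ((2 * a + 5) * P) →
        (f (c, b) ++ f (c, b))[r]? = some (Wc z o F a N ((c : ℕ) + 1) (i + r)) := fun r hr =>
      xl_get (H := H) (d := i) hi hia hF1 _ P hper i le_rfl r hr
    have hbP : (2 * a + 5) * (2 * P + 1) ≤ (2 * a + 5) * (Ln N + 1) :=
      Nat.mul_le_mul_left _ (by omega)
    have hbP' : (2 * a + 5) * (2 * P + 1) = 2 * ((2 * a + 5) * P) + (2 * a + 5) := by ring
    have hP0 : (2 * a + 5) * 1 ≤ (2 * a + 5) * P := Nat.mul_le_mul_left _ (by omega)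
    refine ⟨⟨?_, ?_, ?_⟩, ?_⟩
    · intro h0
      rw [h0] at hlenx
      simp at hlenx
      omega
    · rw [hlenx]; omega
    · intro j h1 h2
      rw [hlenx] at h2
      rw [hget _ (by omega), show i + ((j : ℕ) - i) = j by omega]
      exact W_none_or hH hF1 _ _ (by omega)
    · intro i' hi' ⟨_, h1, h2⟩
      rw [hlenx] at h1 h2
      refine no_later hzo hH (d := i) hi hia hF2 c P hc hP1 i i' le_rfl hi' (fun r hr => ?_)
      have := h2 ⟨i' + r, by omega⟩ (by simp) (by simp; omega)
      simp only [Nat.add_sub_cancel_left] at this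
      rw [hget r hr] at this
      exact this
  have h1 := Set.ncard_le_ncard hsub (finite_set _ i)
  have h2 : (Set.range f).ncard = 2 * N := by
    rw [← Set.image_univ, Set.ncard_image_of_injective _ hfinj, Set.ncard_univ,
      Nat.card_eq_fintype_card, Fintype.card_prod, Fintype.card_fin, Fintype.card_bool]
    ring
  unfold Sq
  rw [← h2]
  exact h1

/-- **Result.** Let `k ≥ 2`.

1. For every nonempty finite set `H` of positions with `max H ≤ m` and every
`n ≥ 4 * 6 ^ (k ^ |H|) * (m + 4)` there is a partial word of length `n` over `k` letters with hole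
set exactly `H` whose extremal positions (`Sq w i = 2 * k ^ |H|`) are exactly the `i ≤ min H`.

2. For such `H`, `m`, `n` and every `i`: some partial word of length `n` over `k` letters with hole
set exactly `H` has `i` as an extremal position if and only if `i ≤ min H`.

3. For `h ≥ 1` and `4 * 6 ^ (k ^ h) * (d + h + 3) ≤ n` there is a partial word of length `n` over
`k` letters with exactly `h` holes and at least `d + 1` extremal positions. -/
theorem result (k : ℕ) (hk : 2 ≤ k) :
    (∀ (H : Finset ℕ) (_ : H.Nonempty) (m : ℕ) (_ : ∀ t ∈ H, t ≤ m) (n : ℕ)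
      (_ : 4 * 6 ^ (k ^ H.card) * (m + 4) ≤ n),
      ∃ w : Fin n → Option (Fin k), (∀ j : Fin n, w j = none ↔ (j : ℕ) ∈ H) ∧
        ∀ i, Sq w i = 2 * k ^ H.card ↔ ∀ t ∈ H, i ≤ t) ∧
    (∀ (H : Finset ℕ) (_ : H.Nonempty) (m : ℕ) (_ : ∀ t ∈ H, t ≤ m) (n : ℕ)
      (_ : 4 * 6 ^ (k ^ H.card) * (m + 4) ≤ n) (i : ℕ),
      (∃ w : Fin n → Option (Fin k), (∀ j : Fin n, w j = none ↔ (j : ℕ) ∈ H) ∧
        Sq w i = 2 * k ^ H.card) ↔ ∀ t ∈ H, i ≤ t) ∧
    (∀ h d n : ℕ, 1 ≤ h → 4 * 6 ^ (k ^ h) * (d + h + 3) ≤ n →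
      ∃ w : Fin n → Option (Fin k), holes w = h ∧
        d + 1 ≤ (Finset.univ.filter (fun i : Fin n => Sq w i = 2 * k ^ h)).card) := by
  have P1 : ∀ (H : Finset ℕ) (_ : H.Nonempty) (m : ℕ) (_ : ∀ t ∈ H, t ≤ m) (n : ℕ)
      (_ : 4 * 6 ^ (k ^ H.card) * (m + 4) ≤ n),
      ∃ w : Fin n → Option (Fin k), (∀ j : Fin n, w j = none ↔ (j : ℕ) ∈ H) ∧
        ∀ i, Sq w i = 2 * k ^ H.card ↔ ∀ t ∈ H, i ≤ t := by
    intro H hne m hm n hn
    obtain ⟨w, hw, h⟩ := main k hk H hne m hm n hn
    exact ⟨w, hw, fun i => ⟨fun hi => le_of_extremal hk H w hw i hi.ge,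
      fun hi => le_antisymm (Sq_le_card hk H w hw i) (h i hi)⟩⟩
  refine ⟨P1, ?_, ?_⟩
  · intro H hne m hm n hn i
    constructor
    · rintro ⟨w, hw, h⟩
      exact le_of_extremal hk H w hw i h.ge
    · intro hi
      obtain ⟨w, hw, h⟩ := P1 H hne m hm n hn
      exact ⟨w, hw, (h i).2 hi⟩
  intro h d n hh hn
  classical
  obtain ⟨w, hw1, hw2⟩ := P1 (Finset.Ico d (d + h)) (by simp; omega) (d + h - 1)
    (fun t ht => by simp at ht; omega) n (by
      rw [Nat.card_Ico, show d + h - d = h by omega, show d + h - 1 + 4 = d + h + 3 by omega]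
      exact hn)
  rw [Nat.card_Ico, show d + h - d = h by omega] at hw2
  have hpos : 1 ≤ 6 ^ (k ^ h) := Nat.one_le_pow _ _ (by omega)
  have hbig : d + h + 3 ≤ n := by
    refine le_trans ?_ hn
    calc d + h + 3 = 1 * (d + h + 3) := by ring
      _ ≤ 4 * 6 ^ (k ^ h) * (d + h + 3) := Nat.mul_le_mul_right _ (by omega)
  refine ⟨w, ?_, ?_⟩
  · unfold holes
    have : (Finset.univ.filter (fun j : Fin n => w j = none)).map Fin.valEmbedding =
        Finset.Ico d (d + h) := by
      ext t
      simp only [Finset.mem_map, Finset.mem_filter, Finset.mem_univ, true_and,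
        Fin.valEmbedding_apply]
      constructor
      · rintro ⟨j, hj, rfl⟩
        exact (hw1 j).1 hj
      · intro ht
        have ht' := Finset.mem_Ico.1 ht
        exact ⟨⟨t, by omega⟩, (hw1 _).2 ht, rfl⟩
    rw [← Finset.card_map Fin.valEmbedding, this, Nat.card_Ico]
    omega
  · have hsub : (Finset.Iic d) ⊆
        (Finset.univ.filter (fun i : Fin n => Sq w i = 2 * k ^ h)).map Fin.valEmbedding := by
      intro t ht
      have ht' := Finset.mem_Iic.1 ht
      simp only [Finset.mem_map, Finset.mem_filter, Finset.mem_univ, true_and,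
        Fin.valEmbedding_apply]
      refine ⟨⟨t, by omega⟩, ?_, rfl⟩
      exact (hw2 t).2 (fun s hs => by have := (Finset.mem_Ico.1 hs).1; omega)
    have := Finset.card_le_card hsub
    rw [Finset.card_map, Nat.card_Iic] at this
    exact this

end Pool.Agent.Results.MP_922422_co.AllPositionsUpToFirstHole
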